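import Mathlib
import Pool.Agent.Q89.FixedClosures

set_option autoImplicit false

namespace Pool.Agent.Results.MP_d3e052_al.EndoClosure

open Pool.Agent.Q89.FixedClosures

/-- For every `m ≥ 1` there is a finitely generated subgroup of `ℤᵐ × F₂` whose endo-fixed
closure is not finitely generated. -/
theorem result : ∀ m : ℕ, 1 ≤ m →
    ∃ H : Subgroup (Multiplicative (Fin m → ℤ) × FreeGroup (Fin 2)),
      H.FG ∧ ¬ (endoClosure H).FG := by
  intro m hm
  exact ⟨H m, H_fg m, by rw [endo_eq hm]; exact not_fg m⟩

end Pool.Agent.Results.MP_d3e052_al.EndoClosure
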